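import Pool.Agent.H64.STM.Targets

/-!
# Row CAC: contractions and permutations of the other places
-/

set_option autoImplicit false

open Matrix Pool.Agent.H64.CC Pool.Agent.H2.NL Pool.Agent.H2.KM Pool.Agent.H64.EV Pool.Agent.H64.FTM
open Pool.Agent.H64.STM

namespace Pool.Agent.H17.STM

theorem cac_perm {m : ℕ} (σ : Equiv.Perm (Fin (m + 2))) (h0 : σ 0 = 0) (h1 : σ 1 = 1) :
    ∃ π : Equiv.Perm (Fin m), ∀ i : Fin m, σ i.succ.succ = (π i).succ.succ := by
  have h : ∀ i : Fin m, ∃ j : Fin m, σ i.succ.succ = j.succ.succ := by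
    intro i
    have hne : σ i.succ.succ ≠ 0 := by
      intro h
      rw [← h0] at h
      exact Fin.succ_ne_zero _ (σ.injective h)
    obtain ⟨y, hy⟩ := Fin.exists_succ_eq.2 hne
    have hy0 : y ≠ 0 := by
      intro h
      rw [h, Fin.succ_zero_eq_one, ← h1] at hy
      have h2 := σ.injective hy
      have h3 : (1 : Fin (m + 2)) = (0 : Fin (m + 1)).succ := rfl
      rw [h3] at h2
      exact Fin.succ_ne_zero _ (Fin.succ_injective _ h2).symm
    obtain ⟨j, hj⟩ := Fin.exists_succ_eq.2 hy0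
    exact ⟨j, by rw [hj, hy]⟩
  choose π0 hπ0 using h
  have hinj : Function.Injective π0 := by
    intro a b hab
    have h2 : σ a.succ.succ = σ b.succ.succ := by rw [hπ0, hπ0, hab]
    exact Fin.succ_injective _ (Fin.succ_injective _ (σ.injective h2))
  exact ⟨Equiv.ofBijective π0 (Finite.injective_iff_bijective.1 hinj), hπ0⟩

theorem cac_kap {K : Type} [Field K] {I : Type} (o : I → Bool) {m : ℕ}
    (σ : Equiv.Perm (Fin (m + 2))) (h0 : σ 0 = 0) (h1 : σ 1 = 1) (π : Equiv.Perm (Fin m))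
    (hπ : ∀ i : Fin m, σ i.succ.succ = (π i).succ.succ) (a b : I) (w : Fin m → I) :
    (kap o σ (Fin.cons a (Fin.cons b w) : Fin (m + 2) → I) : K) = kap o π w := by
  have s0 : σ.symm 0 = 0 := by rw [Equiv.symm_apply_eq, h0]
  have s1 : σ.symm 1 = 1 := by rw [Equiv.symm_apply_eq, h1]
  have s2 : ∀ j : Fin m, σ.symm j.succ.succ = (π.symm j).succ.succ := by
    intro j
    rw [Equiv.symm_apply_eq, hπ, Equiv.apply_symm_apply]
  set W : Fin (m + 2) → I := Fin.cons a (Fin.cons b w) with hW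
  set G : Fin (m + 2) → Fin (m + 2) → K := fun x y =>
    if x < y ∧ σ.symm y < σ.symm x then ks K (o (W x)) (o (W y)) else 1 with hG
  have hL : (kap o σ W : K) = ∏ x, ∏ y, G x y := by
    unfold kap
    rw [Fintype.prod_prod_type]
  have hRt : (kap o π w : K) = ∏ x : Fin m, ∏ y : Fin m,
      if x < y ∧ π.symm y < π.symm x then ks K (o (w x)) (o (w y)) else 1 := by
    unfold kap
    rw [Fintype.prod_prod_type]
  have e1 : ∏ y, G 0 y = 1 := by
    refine Finset.prod_eq_one fun y _ => if_neg ?_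
    rintro ⟨-, h⟩
    rw [s0] at h
    exact Fin.not_lt_zero _ h
  have e2 : ∏ y, G (0 : Fin (m + 1)).succ y = 1 := by
    refine Finset.prod_eq_one fun y _ => if_neg ?_
    rintro ⟨h, h'⟩
    have h3 : (0 : Fin (m + 1)).succ = (1 : Fin (m + 2)) := rfl
    rw [h3, s1] at h'
    have h4 : σ.symm y = 0 := by
      have h5 : (σ.symm y).1 < 1 := h'
      exact Fin.ext (by simpa using Nat.lt_one_iff.1 h5)
    rw [Equiv.symm_apply_eq, h0] at h4
    rw [h4] at h
    exact Fin.not_lt_zero _ h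
  rw [hL, hRt, Fin.prod_univ_succ (fun x => ∏ y, G x y), e1, one_mul,
    Fin.prod_univ_succ (fun x : Fin (m + 1) => ∏ y, G x.succ y), e2, one_mul]
  refine Finset.prod_congr rfl fun i _ => ?_
  have e3 : G i.succ.succ 0 = 1 := if_neg fun h => Fin.not_lt_zero _ h.1
  have e4 : G i.succ.succ (0 : Fin (m + 1)).succ = 1 := if_neg fun h => by
    have h2 := h.1
    rw [Fin.succ_lt_succ_iff] at h2
    exact Fin.not_lt_zero _ h2
  rw [Fin.prod_univ_succ (G i.succ.succ), e3, one_mul,
    Fin.prod_univ_succ (fun y : Fin (m + 1) => G i.succ.succ y.succ), e4, one_mul]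
  refine Finset.prod_congr rfl fun j _ => ?_
  simp only [hG, hW, s2, Fin.succ_lt_succ_iff, Fin.cons_succ]

theorem pf_CAC : T_CAC := by
  intro m σ h0 h1
  obtain ⟨π, hπ⟩ := cac_perm σ h0 h1
  refine ⟨π, fun K _ I _ _ F f => ?_⟩
  funext w
  unfold cf ac
  rw [Finset.mul_sum]
  refine Finset.sum_congr rfl fun a _ => ?_
  rw [cac_kap F.o σ h0 h1 π hπ a (F.st a) w]
  have e : (fun i => (Fin.cons a (Fin.cons (F.st a) w) : Fin (m + 2) → I) (σ i)) =
      (Fin.cons a (Fin.cons (F.st a) fun i => w (π i)) : Fin (m + 2) → I) := by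
    funext i
    refine Fin.cases ?_ (fun i => ?_) i
    · rw [h0]
      rfl
    · refine Fin.cases ?_ (fun i => ?_) i
      · have h3 : (0 : Fin (m + 1)).succ = (1 : Fin (m + 2)) := rfl
        rw [h3, h1]
        rfl
      · rw [hπ]
        rfl
  rw [e]
  ring

end Pool.Agent.H17.STM
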